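import Pool.Agent.Lib_MP_1858fb_f.QP
import Pool.Agent.Lib_MP_1858fb_s.FinalZ
import Pool.Agent.Lib_MP_1858fb_g.MainZ

set_option autoImplicit false

/-!
# MP_1858fb_ag, Q1: `V₀ = V` for every smooth variety, in every characteristic

The smooth variety `V` is the quotient `Y / T` of a locally closed subset `Y` of `k^M` by a
torus `T` which acts freely and linearly (every smooth variety has this form).
-/

namespace Pool.Agent.Results.MP_1858fb_ag.EverySmoothVariety

open Pool.Agent.VF Pool.Agent.VFG

/-- Let `V = Y / T` be a smooth variety of dimension `M - c - r` at least two over an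
algebraically closed field `k`, and suppose that there is a very free curve `F` in `V`. Then for
all pairwise distinct points `v i` of `V` there is a very free curve in `V` which passes through
each point `v i`, exactly once and with nonzero derivative. -/
theorem result {k : Type} [Field k] [IsAlgClosed k] {M r c : ℕ} (w : Fin M → Fin r → ℤ)
    (Y : Set (Fin M → k)) (hY : IsTorsor w c Y) (hdim : c + r + 2 ≤ M)
    (h : ∃ (δ : Fin r → ℤ) (F : Fin M → ℕ → k), IsGCurve w Y δ F ∧ GVeryFree w Y δ F)
    (m : ℕ) (v : Fin m → Fin M → k) (hv : ∀ i, v i ∈ Y)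
    (hdis : ∀ i j, i ≠ j → ¬ ∃ t : Fin r → kˣ, v i = act w t (v j)) :
    ∃ (δ : Fin r → ℤ) (F : Fin M → ℕ → k), IsGCurve w Y δ F ∧ GVeryFree w Y δ F ∧
      ∀ i, GSmoothAt w δ F (v i) := by
  obtain ⟨δ, F, hF, hvf⟩ := h
  exact general_smooth' (Pool.Agent.VFF.qpTheorem k) (Pool.Agent.VFS.qpSmooth k) hY hdim hF hvf
    v hv hdis

end Pool.Agent.Results.MP_1858fb_ag.EverySmoothVariety
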