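import Pool.Agent.Lib_MP_1858fb_f.Main

set_option autoImplicit false

/-!
# MP_1858fb_ag, Q1 for quasi-projective varieties in every characteristic

Let `k` be an algebraically closed field and let `V` be a smooth quasi-projective variety over
`k` (not necessarily proper) of dimension at least one which has a very free curve. Then any
finite set of points of `V` lies on one very free curve in `V`, and each of them is a smooth
point of the image curve. In other words, `V₀ = V`.
-/

namespace Pool.Agent.Results.MP_1858fb_ag.StrongRationalConnectedness

open Pool.Agent.VF Pool.Agent.VFS

/-- `V₀ = V` for every smooth quasi-projective variety `V` with a very free curve. -/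
theorem result {k : Type} [Field k] [IsAlgClosed k] {N c : ℕ} (hc : c < N)
    {V : Set (Fin (N + 1) → k)} (hV : LocClosed V) (hirr : Irred V)
    (hsm : ∀ x ∈ V, SmoothAt c V x)
    (h : ∃ (d : ℕ) (F : Fin (d + 1) → Fin (N + 1) → k), IsCurve V F ∧ VeryFree V F) :
    HasProp V :=
  Pool.Agent.VFF.hasProp hV hirr hc hsm h

end Pool.Agent.Results.MP_1858fb_ag.StrongRationalConnectedness
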